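import Pool.Agent.K6.H86.NP.Fin

/-!
# The analytic generalized Nagao conjecture for all fibrations in curves whose total space and base
# are rational over a finitely generated field

Let `M` be a finitely generated field of characteristic zero which contains the number field `k`, the
function field of an arbitrary variety `V` over `k`, of transcendence degree `d` over `ℚ`.  Let
`K / M` be purely transcendental of degree `r + 1`, and let `X` be a smooth projective geometrically
irreducible curve over `K` whose function field `L` is purely transcendental over `M`, of degree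
`r + 2`.  In other words, the base `𝒴` is birational to `V × ℙ^(r+1)`, and `𝒳` is birational to
`V × ℙ^(r+2)`; the dominant rational map `V × ℙ^(r+2) → V × ℙ^(r+1)` over `V` is arbitrary, with an
irreducible generic fibre.  For instance `X` is the generic fibre of any pencil of plane curves over
`M` with irreducible general member.

The curve `X` is described by its function field `L / K`: its closed points are the normalised discrete
valuations of `L` which are trivial on `K`, `Pic⁰ X` is the group of the divisors of degree zero modulo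
the divisors of functions.  Since the Albanese varieties of `𝒳` and `𝒴` are both that of `V`, the
`K/k`-trace of the Jacobian is `0` and `𝔄* = 𝔄`; the group `Pic⁰ X` has finite index in `P_X(K)`.

The analytic side is proved for every model of `X` over the integers of `k`.
-/

set_option autoImplicit false

namespace Pool.Agent.Results.MP_3d3918_nt.RationalTotalSpaces

open NumberField IsDedekindDomain FF
open Pool.Agent.Y707.PR (HasResidue)

/-- The field `E` is purely transcendental of degree `n` over the field `M`. -/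
def Rational {M E : Type} [Field M] [Field E] (ρ : M →+* E) (n : ℕ) : Prop :=
  ∃ a : Fin n → E, (∀ p : MvPolynomial (Fin n) M, p.eval₂ ρ a = 0 → p = 0) ∧
    Subfield.closure (Set.range ρ ∪ Set.range a) = ⊤

/-! ### the group of the divisor classes of degree zero -/

section
variable {K L : Type} [Field K] [Field L] [Algebra K L]

/-- The functions regular at `P`, a closed point of the curve, that is a normalised discrete
valuation of `L` trivial on `K` (`ord_P 0` is `0` by convention). -/
def regular (P : Place K L) : Submodule K L := Submodule.span K {f : L | 0 ≤ P.ord f}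

/-- The functions which vanish at `P`. -/
def vanishing (P : Place K L) : Submodule K L := Submodule.span K {f : L | 0 < P.ord f}

/-- The degree of `P`: the dimension over `K` of the ring of the functions regular at `P` modulo the
ideal of those which vanish at `P`. -/
noncomputable def deg (P : Place K L) : ℕ :=
  Module.finrank K (regular P ⧸ (vanishing P).comap (regular P).subtype)

end

section
variable (K L : Type) [Field K] [Field L] [Algebra K L]

/-- The divisors `D = ∑ n_P P` of degree `∑ n_P deg P = 0`. -/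
noncomputable def degreeZero : Submodule ℤ (Place K L →₀ ℤ) :=
  LinearMap.ker (Finsupp.linearCombination ℤ fun P : Place K L => (deg P : ℤ))

/-- The divisors `∑ ord_P(f) P` of the functions `f ≠ 0`. -/
noncomputable def principal : Submodule ℤ (Place K L →₀ ℤ) :=
  Submodule.span ℤ {D | ∃ f : L, f ≠ 0 ∧ ∀ P, D P = P.ord f}

/-- The group `Pic⁰` of the divisor classes of degree zero. -/
def Pic0 : Type := degreeZero K L ⧸ (principal K L).comap (degreeZero K L).subtype

noncomputable instance : AddCommGroup (Pic0 K L) :=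
  Submodule.Quotient.addCommGroup ((principal K L).comap (degreeZero K L).subtype)

end

/-! ### models -/

/-- The subring is finitely generated. -/
def FinitelyGenerated {E : Type} [Field E] (A : Subring E) : Prop :=
  ∃ G : Finset E, Subring.closure (G : Set E) = A

section
variable {K L : Type} [Field K] [Field L] [Algebra K L]

/-- A model of the smooth projective curve over `K` with the function field `L`, for a function
`u ∈ L` which is not constant: `R` is a finitely generated ring with the field of fractions `K`, and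
`A₁` and `A₂` are finitely generated rings in `L` which contain `R` and which become over `K` the
integral closures of `K[u]` and `K[1/u]` in `L`, that is the coordinate rings of the parts `u ≠ ∞`
and `u ≠ 0` of the curve. -/
structure IsModel (R : Subring K) (A₁ A₂ : Subring L) (u : L) : Prop where
  fg : FinitelyGenerated R
  fg₁ : FinitelyGenerated A₁
  fg₂ : FinitelyGenerated A₂
  frac : ∀ x : K, ∃ a ∈ R, ∃ b ∈ R, b ≠ 0 ∧ x = a / b
  le₁ : ∀ x ∈ R, algebraMap K L x ∈ A₁
  le₂ : ∀ x ∈ R, algebraMap K L x ∈ A₂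
  notConstant : ∀ x, algebraMap K L x ≠ u
  mem₁ : u ∈ A₁
  mem₂ : u⁻¹ ∈ A₂
  integral₁ : ∀ z : L, IsIntegral (Algebra.adjoin K {u}) z ↔
    ∃ r ∈ R, r ≠ 0 ∧ algebraMap K L r * z ∈ A₁
  integral₂ : ∀ z : L, IsIntegral (Algebra.adjoin K {u⁻¹}) z ↔
    ∃ r ∈ R, r ≠ 0 ∧ algebraMap K L r * z ∈ A₂

/-- The point `χ` of `Spec A` with values in `F` lies above the point `φ` of `Spec R`. -/
def Above {R : Subring K} {A : Subring L} {F : Type} [CommRing F] (φ : R →+* F) (χ : A →+* F) :
    Prop :=
  ∀ (x : K) (hx : x ∈ R) (h : algebraMap K L x ∈ A), χ ⟨algebraMap K L x, h⟩ = φ ⟨x, hx⟩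

/-- The number of the points with values in the field `F` of the fibre of the model over the point
`φ` of `Spec R`: the points with `u ≠ ∞`, and those with `1/u = 0`. -/
noncomputable def points {R : Subring K} (A₁ A₂ : Subring L) (u : L) {F : Type} [CommRing F]
    (φ : R →+* F) : ℕ :=
  Nat.card {χ : A₁ →+* F // Above φ χ} +
    Nat.card {χ : A₂ →+* F // Above φ χ ∧ ∀ h : u⁻¹ ∈ A₂, χ ⟨u⁻¹, h⟩ = 0}

/-- The fibres over the points with `N ≠ 0` satisfy the Weil bound, `|#X_φ(F) - q - 1| ≤ C √q`; for
instance, if they are smooth projective geometrically irreducible curves. -/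
def WeilBound (R : Subring K) (A₁ A₂ : Subring L) (u : L) (N : R) : Prop :=
  ∃ C : ℝ, ∀ (F : Type) [Field F] [Finite F] (φ : R →+* F), φ N ≠ 0 →
    |(points A₁ A₂ u φ : ℝ) - Nat.card F - 1| ≤ C * √(Nat.card F)

/-- The points `φ` of `Spec R` above `v`, rational over the residue field of `v`, with `N ≠ 0`;
`κ` is the structure map. -/
def Fibre {k : Type} [Field k] [NumberField k] {R : Subring K} (κ : 𝓞 k →+* R) (N : R)
    (v : HeightOneSpectrum (𝓞 k)) : Type :=
  {φ : R →+* 𝓞 k ⧸ v.asIdeal // (∀ o, φ (κ o) = Ideal.Quotient.mk v.asIdeal o) ∧ φ N ≠ 0}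

/-- The average `𝔄_v = q_v^{-m} ∑_φ a(X_φ)` over the points `φ` of `Spec R` above `v`, rational over the
residue field of `v`, with `N ≠ 0`; `a(X_φ) = q_v + 1 - #X_φ` is the trace of the Frobenius on the
first cohomology group of the curve `X_φ`. -/
noncomputable def average {k : Type} [Field k] [NumberField k] {R : Subring K} (κ : 𝓞 k →+* R)
    (A₁ A₂ : Subring L) (u : L) (N : R) (m : ℕ) (v : HeightOneSpectrum (𝓞 k)) : ℝ :=
  (∑ᶠ φ : Fibre κ N v, ((Nat.card (𝓞 k ⧸ v.asIdeal) : ℝ) + 1 - points A₁ A₂ u φ.1)) /
    Nat.card (𝓞 k ⧸ v.asIdeal) ^ m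

end

/-! ### comparison with the notions of the helper files -/

section
variable {K L : Type} [Field K] [Field L] [Algebra K L]

/-- the ring of the functions regular at `P` -/
def regS (P : Place K L) : Submodule K L where
  carrier := {f | P.Reg f}
  add_mem' := P.reg_add
  zero_mem' := P.reg_zero
  smul_mem' := by
    intro c f hf
    rw [Algebra.smul_def]
    exact P.reg_mul (P.reg_const c) hf

/-- the functions which vanish at `P` -/
def vanS (P : Place K L) : Submodule K L where
  carrier := {f | P.Reg f ∧ P.red f = 0}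
  add_mem' := by
    rintro f g ⟨hf, hf'⟩ ⟨hg, hg'⟩
    exact ⟨P.reg_add hf hg, by rw [P.red_add hf hg, hf', hg', add_zero]⟩
  zero_mem' := ⟨P.reg_zero, P.red_zero⟩
  smul_mem' := by
    rintro c f ⟨hf, hf'⟩
    rw [Algebra.smul_def]
    exact ⟨P.reg_mul (P.reg_const c) hf, by rw [P.red_mul (P.reg_const c) hf, hf', mul_zero]⟩

lemma span_reg (P : Place K L) : Submodule.span K {f : L | 0 ≤ P.ord f} = regS P := by
  apply le_antisymm
  · rw [Submodule.span_le]
    intro f hf
    exact Or.inr hf
  · rintro f (hf | hf)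
    · rw [hf]
      exact Submodule.zero_mem _
    · exact Submodule.subset_span hf

lemma span_van (P : Place K L) : Submodule.span K {f : L | 0 < P.ord f} = vanS P := by
  apply le_antisymm
  · rw [Submodule.span_le]
    intro f hf
    have hf' : 0 < P.ord f := hf
    have h1 : P.Reg f := Or.inr hf'.le
    exact ⟨h1, (P.red_eq_zero_iff h1).2 (Or.inr hf')⟩
  · rintro f ⟨h1, h2⟩
    rcases (P.red_eq_zero_iff h1).1 h2 with hf | hf
    · rw [hf]
      exact Submodule.zero_mem _
    · exact Submodule.subset_span hf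

/-- the residue map -/
noncomputable def resL (P : Place K L) : regS P →ₗ[K] P.RF where
  toFun f := P.red f.1
  map_add' f g := P.red_add f.2 g.2
  map_smul' c f := by
    show P.red (c • f.1) = c • P.red f.1
    rw [Algebra.smul_def, Algebra.smul_def, P.red_mul (P.reg_const c) f.2]
    rfl

lemma deg_eq (P : Place K L) : deg P = P.deg := by
  unfold deg Place.deg
  rw [show regular P = regS P from span_reg P, show vanishing P = vanS P from span_van P]
  have h1 : (vanS P).comap (regS P).subtype = LinearMap.ker (resL P) := by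
    ext f
    rw [Submodule.mem_comap, LinearMap.mem_ker]
    exact ⟨fun h => h.2, fun h => ⟨f.2, h⟩⟩
  rw [h1]
  refine ((resL P).quotKerEquivOfSurjective ?_).finrank_eq
  intro c
  obtain ⟨f, hf, rfl⟩ := P.red_surjective c
  exact ⟨⟨f, hf⟩, rfl⟩

variable [CharZero K] [IsFF K L]

lemma degreeZero_eq : degreeZero K L = LinearMap.ker (Pool.Agent.K6.H86.NP.degL K L) := by
  ext D
  unfold degreeZero
  rw [LinearMap.mem_ker, LinearMap.mem_ker, Pool.Agent.K6.H86.NP.degL_apply,
    Finsupp.linearCombination_apply]
  unfold FF.ddeg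
  have h1 : (D.sum fun (P : Place K L) (n : ℤ) => n • (deg P : ℤ)) =
      D.sum fun (P : Place K L) (n : ℤ) => n * (P.deg : ℤ) := by
    refine Finsupp.sum_congr fun P _ => ?_
    rw [deg_eq, smul_eq_mul]
  rw [h1]

lemma principal_eq : principal K L = Pool.Agent.K6.H86.NP.prin K L := by
  have h1 : {D : Place K L →₀ ℤ | ∃ f : L, f ≠ 0 ∧ ∀ P, D P = P.ord f} =
      (Pool.Agent.K6.H86.NP.prin K L : Set (Place K L →₀ ℤ)) := by
    ext D
    constructor
    · rintro ⟨f, hf, h⟩
      refine ⟨f, hf, ?_⟩
      ext P
      rw [divisor_apply, h]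
    · rintro ⟨f, hf, rfl⟩
      exact ⟨f, hf, fun P => divisor_apply f P⟩
  unfold principal
  rw [h1, Submodule.span_eq]

lemma quot_congr {V : Type} [AddCommGroup V] {A A' B B' : Submodule ℤ V} (hA : A = A') (hB : B = B') :
    Nonempty ((A ⧸ B.comap A.subtype) ≃ₗ[ℤ] (A' ⧸ B'.comap A'.subtype)) := by
  subst hA
  subst hB
  exact ⟨LinearEquiv.refl _ _⟩

lemma pic_equiv : Nonempty (Pic0 K L ≃ₗ[ℤ] Pool.Agent.K6.H86.NP.Pic0 K L) :=
  quot_congr degreeZero_eq principal_eq

end

section
variable {M E : Type} [Field M] [Field E] [Algebra M E]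

lemma rational_gen {n : ℕ} (h : Rational (algebraMap M E) n) : ∃ a : Fin n → E,
    AlgebraicIndependent M a ∧ IntermediateField.adjoin M (Set.range a) = ⊤ := by
  obtain ⟨a, h1, h2⟩ := h
  refine ⟨a, algebraicIndependent_iff.2 fun p hp => h1 p ?_, ?_⟩
  · rwa [MvPolynomial.aeval_def] at hp
  · rw [eq_top_iff]
    intro x _
    have h3 : x ∈ Subfield.closure (Set.range (algebraMap M E) ∪ Set.range a) := by
      rw [h2]
      exact Subfield.mem_top x
    exact h3

end

section
variable {M K L : Type} [Field M] [Field K] [Field L] [Algebra M K] [Algebra M L] [Algebra K L]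
  [IsScalarTower M K L]

lemma isFF {r : ℕ} {w : Fin (r + 1) → K} (hw : AlgebraicIndependent M w)
    (hK : IntermediateField.adjoin M (Set.range w) = ⊤) {a : Fin (r + 2) → L}
    (ha : AlgebraicIndependent M a) (hL : IntermediateField.adjoin M (Set.range a) = ⊤) :
    IsFF K L := by
  constructor
  · have h1 : IntermediateField.adjoin K (Set.range a) = ⊤ := by
      rw [eq_top_iff]
      intro x _
      have h2 : x ∈ IntermediateField.adjoin M (Set.range a) := by
        rw [hL]
        exact IntermediateField.mem_top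
      have h3 : IntermediateField.adjoin M (Set.range a) ≤
          (IntermediateField.adjoin K (Set.range a)).restrictScalars M :=
        IntermediateField.adjoin_le_iff.2 (IntermediateField.subset_adjoin K _)
      exact h3 h2
    have h4 : (⊤ : IntermediateField K L).FG := by
      rw [← h1]
      exact IntermediateField.fg_adjoin_of_finite (Set.finite_range a)
    exact IntermediateField.fg_top_iff.1 h4
  · have h1 := Pool.Agent.K6.H86.NP.trdeg_gen hw hK
    have h2 := Pool.Agent.K6.H86.NP.trdeg_gen ha hL
    have h3 := trdeg_add_eq M K (A := L)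
    rw [h1, h2] at h3
    have h4 : ((r + 1 : ℕ) : Cardinal.{0}) + Algebra.trdeg K L = ((r + 1 : ℕ) : Cardinal.{0}) + 1 := by
      rw [h3]
      push_cast
      rw [add_assoc]
      norm_num
    exact Cardinal.eq_of_add_eq_add_left h4 (Cardinal.natCast_lt_aleph0 (n := r + 1))

end


section
variable {K L : Type} [Field K] [Field L] [Algebra K L]

open Pool.Agent.K6.H86.NP (pts Agr Good FGr)

/-- the ring in `L` -/
noncomputable def eq (L : Type) [Field L] [Algebra K L] (R : Subring K) :
    R ≃+* R.map (algebraMap K L) :=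
  R.equivMapOfInjective (algebraMap K L) (algebraMap K L).injective

lemma fg_map {R : Subring K} (h : FinitelyGenerated R) : FGr (R.map (algebraMap K L)) := by
  classical
  obtain ⟨G, hG⟩ := h
  refine ⟨G.image (algebraMap K L), ?_⟩
  rw [Finset.coe_image, ← hG, RingHom.map_closure]

lemma isModel {R : Subring K} {A₁ A₂ : Subring L} {u : L} (h : IsModel R A₁ A₂ u) :
    Pool.Agent.K6.H86.NP.IsModel K u (R.map (algebraMap K L)) A₁ A₂ where
  fgR := fg_map h.fg
  fg₁ := h.fg₁
  fg₂ := h.fg₂
  le₁ := by
    rintro _ ⟨x, hx, rfl⟩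
    exact h.le₁ x hx
  le₂ := by
    rintro _ ⟨x, hx, rfl⟩
    exact h.le₂ x hx
  le_K := by
    rintro _ ⟨x, hx, rfl⟩
    exact ⟨x, rfl⟩
  frac := by
    intro x
    obtain ⟨a, ha, b, hb, hb0, hx⟩ := h.frac x
    refine ⟨algebraMap K L a, ⟨a, ha, rfl⟩, algebraMap K L b, ⟨b, hb, rfl⟩,
      (map_ne_zero_iff _ (algebraMap K L).injective).2 hb0, ?_⟩
    rw [hx, map_div₀]
  mem₁ := h.mem₁
  mem₂ := h.mem₂
  int₁ := by
    intro z
    rw [h.integral₁]
    constructor
    · rintro ⟨r, hr, hr0, hrz⟩
      exact ⟨_, ⟨r, hr, rfl⟩, (map_ne_zero_iff _ (algebraMap K L).injective).2 hr0, hrz⟩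
    · rintro ⟨_, ⟨r, hr, rfl⟩, hr0, hrz⟩
      exact ⟨r, hr, (map_ne_zero_iff _ (algebraMap K L).injective).1 hr0, hrz⟩
  int₂ := by
    intro z
    rw [h.integral₂]
    constructor
    · rintro ⟨r, hr, hr0, hrz⟩
      exact ⟨_, ⟨r, hr, rfl⟩, (map_ne_zero_iff _ (algebraMap K L).injective).2 hr0, hrz⟩
    · rintro ⟨_, ⟨r, hr, rfl⟩, hr0, hrz⟩
      exact ⟨r, hr, (map_ne_zero_iff _ (algebraMap K L).injective).1 hr0, hrz⟩

lemma above_iff {R : Subring K} {A : Subring L} {F : Type} [Field F]
    (φ : R.map (algebraMap K L) →+* F) (χ : A →+* F) :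
    Agr φ χ ↔ Above (φ.comp (eq L R : R →+* R.map (algebraMap K L))) χ := by
  constructor
  · intro h x hx h'
    rw [h _ ⟨x, hx, rfl⟩ h']
    rfl
  · rintro h _ ⟨x, hx, rfl⟩ h'
    exact (h x hx h').trans rfl

lemma points_eq {R : Subring K} (A₁ A₂ : Subring L) (u : L) {F : Type} [Field F]
    (φ : R.map (algebraMap K L) →+* F) :
    points A₁ A₂ u (φ.comp (eq L R : R →+* R.map (algebraMap K L))) =
      pts (R.map (algebraMap K L)) A₁ A₂ u F φ := by
  unfold points pts
  congr 1
  · exact Nat.card_congr (Equiv.subtypeEquivRight fun χ => (above_iff φ χ).symm)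
  · exact Nat.card_congr (Equiv.subtypeEquivRight fun χ => and_congr_left fun _ =>
      (above_iff φ χ).symm)

lemma comp_symm {R : Subring K} {F : Type} [CommRing F] (φ : R →+* F) :
    (φ.comp ((eq L R).symm : R.map (algebraMap K L) →+* R)).comp
      (eq L R : R →+* R.map (algebraMap K L)) = φ := by
  refine RingHom.ext fun x => ?_
  show φ ((eq L R).symm (eq L R x)) = φ x
  rw [RingEquiv.symm_apply_apply]

lemma nonzero_iff {R : Subring K} {F : Type} [CommRing F]
    (φ : R.map (algebraMap K L) →+* F) (N : R) :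
    (∀ h : algebraMap K L N ∈ R.map (algebraMap K L), φ ⟨algebraMap K L N, h⟩ ≠ 0) ↔
      (φ.comp (eq L R : R →+* R.map (algebraMap K L))) N ≠ 0 :=
  ⟨fun h => h ⟨N, N.2, rfl⟩, fun h _ => h⟩

lemma good_iff {R : Subring K} (A₁ A₂ : Subring L) (u : L) (N : R) :
    WeilBound R A₁ A₂ u N ↔ Good (R.map (algebraMap K L)) A₁ A₂ u (algebraMap K L N) := by
  constructor
  · rintro ⟨C, hC⟩
    refine ⟨C, fun F _ _ φ hφ => ?_⟩
    rw [← points_eq]
    exact hC F _ ((nonzero_iff φ N).1 hφ)
  · rintro ⟨C, hC⟩
    refine ⟨C, fun F _ _ φ hφ => ?_⟩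
    have h1 := hC F (φ.comp ((eq L R).symm : R.map (algebraMap K L) →+* R)) (by
      rw [nonzero_iff, comp_symm]
      exact hφ)
    rw [← points_eq, comp_symm] at h1
    exact h1

variable {k : Type} [Field k] [NumberField k]

lemma average_eq {R : Subring K} (κ : 𝓞 k →+* R) (A₁ A₂ : Subring L) (u : L) (N : R) (m : ℕ)
    (v : HeightOneSpectrum (𝓞 k)) :
    average κ A₁ A₂ u N m v = Pool.Agent.K6.H86.NP.average
      ((algebraMap K L).comp (R.subtype.comp κ)) (R.map (algebraMap K L)) A₁ A₂ u
        (algebraMap K L N) m v := by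
  have hfin := Pool.Agent.H341R2.finite_v v
  unfold average Pool.Agent.K6.H86.NP.average
  congr 1
  let E : {φ : R.map (algebraMap K L) →+* 𝓞 k ⧸ v.asIdeal //
      Pool.Agent.K6.H86.NP.Ov ((algebraMap K L).comp (R.subtype.comp κ))
        (Ideal.Quotient.mk v.asIdeal) φ ∧
      ∀ h : algebraMap K L N ∈ R.map (algebraMap K L), φ ⟨algebraMap K L N, h⟩ ≠ 0} ≃
      Fibre κ N v :=
    { toFun := fun φ => ⟨φ.1.comp (eq L R : R →+* R.map (algebraMap K L)), by
        refine ⟨fun o => ?_, (nonzero_iff φ.1 N).1 φ.2.2⟩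
        exact φ.2.1 o ⟨(κ o : K), (κ o).2, rfl⟩⟩
      invFun := fun φ => ⟨φ.1.comp ((eq L R).symm : R.map (algebraMap K L) →+* R), by
        refine ⟨fun o h => ?_, ?_⟩
        · rw [← φ.2.1 o]
          show φ.1 ((eq L R).symm _) = _
          congr 1
          rw [RingEquiv.symm_apply_eq]
          rfl
        · rw [nonzero_iff, comp_symm]
          exact φ.2.2⟩
      left_inv := fun φ => by
        apply Subtype.ext
        refine RingHom.ext fun x => ?_
        show φ.1 (eq L R ((eq L R).symm x)) = φ.1 x
        rw [RingEquiv.apply_symm_apply]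
      right_inv := fun φ => Subtype.ext (comp_symm φ.1) }
  rw [← finsum_comp_equiv E]
  refine finsum_congr fun φ => ?_
  have h1 := points_eq A₁ A₂ u φ.1
  show ((Nat.card (𝓞 k ⧸ v.asIdeal) : ℝ) + 1 - points A₁ A₂ u
    (φ.1.comp (eq L R : R →+* R.map (algebraMap K L)))) = _
  rw [← h1]

end

/-- **The analytic generalized Nagao conjecture for all the curves `X / K` such that `K` and the
function field `L` of `X` are purely transcendental over a finitely generated field `M` of
characteristic zero, for every model.** -/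
theorem result {k M K L : Type} [Field k] [NumberField k] [Field M] [CharZero M] [Field K] [Field L]
    [Algebra K L] (ι : k →+* M) (ρ : M →+* K)
    (hM : ∃ S : Finset M, Subfield.closure (S : Set M) = ⊤) {d r : ℕ} (hd : Algebra.trdeg ℚ M = d)
    (hK : Rational ρ (r + 1)) (hL : Rational ((algebraMap K L).comp ρ) (r + 2))
    (hKL : ∀ x : L, IsAlgebraic K x → x ∈ Set.range (algebraMap K L)) :
    -- the algebraic side: the group `Pic⁰ X`
    AddGroup.FG (Pic0 K L) ∧
    -- the analytic side, for every model
    ∀ (R : Subring K) (A₁ A₂ : Subring L) (u : L) (κ : 𝓞 k →+* R), IsModel R A₁ A₂ u →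
      (∀ o, (κ o : K) = ρ (ι o)) →
      (∃ N : R, N ≠ 0 ∧ WeilBound R A₁ A₂ u N) ∧
      ∀ N : R, N ≠ 0 → WeilBound R A₁ A₂ u N → ∀ S : Finset (HeightOneSpectrum (𝓞 k)),
        HasResidue S (fun v => -average κ A₁ A₂ u N (d + r + 1) v) 1
          (Module.finrank ℤ (Pic0 K L)) := by
  classical
  let iM : Algebra k M := ι.toAlgebra
  let iK : Algebra M K := ρ.toAlgebra
  let ikK : Algebra k K := (ρ.comp ι).toAlgebra
  have : IsScalarTower k M K := IsScalarTower.of_algebraMap_eq fun _ => rfl
  let iL : Algebra M L := ((algebraMap K L).comp ρ).toAlgebra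
  have : IsScalarTower M K L := IsScalarTower.of_algebraMap_eq fun _ => rfl
  have : CharZero K := charZero_of_injective_algebraMap ρ.injective
  obtain ⟨w, hw, hwK⟩ := rational_gen (M := M) (E := K) hK
  obtain ⟨a, ha, haL⟩ := rational_gen (M := M) (E := L) hL
  have hFF : IsFF K L := isFF hw hwK ha haL
  obtain ⟨e⟩ := pic_equiv (K := K) (L := L)
  have hrank : Module.finrank ℤ (Pic0 K L) =
      Module.finrank ℤ (Pool.Agent.K6.H86.NP.Pic0 K L) := e.finrank_eq
  refine ⟨?_, ?_⟩
  · -- a function which is not constant, and a model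
    obtain ⟨u, hu⟩ := IsFF.exists_transcendental (k := K) (K := L)
    obtain ⟨R₀, R', A₁', A₂', θ, g, h, n', t₀, c', G₁, G₂, f, b₀, D, hρ⟩ :=
      Pool.Agent.K6.H86.NP.exists_cnv hM (Pool.Agent.K6.H86.NP.rhoM k M L)
        (fun o => ⟨_, rfl⟩) haL hwK hKL hu
    obtain ⟨N', hN', hN'0, hg', hfin, -, -⟩ := D.asy hKL hu ha haL hw hwK hd
    have h1 : Module.Finite ℤ (degreeZero K L ⧸ (principal K L).comap (degreeZero K L).subtype) :=
      Module.Finite.equiv e.symm
    exact Module.Finite.iff_addGroup_fg.1 h1
  · intro R A₁ A₂ u κ hmod hκ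
    have hρ : Pool.Agent.K6.H86.NP.rhoM k M L = (algebraMap K L).comp (R.subtype.comp κ) := by
      refine RingHom.ext fun o => ?_
      show algebraMap K L (ρ (ι o)) = algebraMap K L (κ o)
      rw [hκ]
    have hO' : ∀ o : 𝓞 k, Pool.Agent.K6.H86.NP.rhoM k M L o ∈ R.map (algebraMap K L) := by
      intro o
      rw [hρ]
      exact ⟨(κ o : K), (κ o).2, rfl⟩
    have hu : u ∉ Set.range (algebraMap K L) := by
      rintro ⟨x, hx⟩
      exact hmod.notConstant x hx
    have hmain := Pool.Agent.K6.H86.NP.main (k := k) hM hd hw hwK ha haL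
      hKL hu (isModel hmod) hO'
    constructor
    · obtain ⟨_, ⟨N, hN, rfl⟩, hN0, hg⟩ := hmain.2.1
      exact ⟨⟨N, hN⟩, fun h => hN0 (by
          have h' : N = 0 := congrArg Subtype.val h
          rw [h', map_zero]), (good_iff _ _ _ _).2 hg⟩
    · intro N hN0 hNg S
      rw [hrank]
      have h1 := hmain.2.2 _ ⟨(N : K), N.2, rfl⟩ (fun h => hN0 (Subtype.ext
        ((map_eq_zero_iff _ (algebraMap K L).injective).1 h))) ((good_iff _ _ _ _).1 hNg) S
      have h2 : (fun v : HeightOneSpectrum (𝓞 k) => -average κ A₁ A₂ u N (d + r + 1) v) =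
          fun v => -Pool.Agent.K6.H86.NP.average (Pool.Agent.K6.H86.NP.rhoM k M L)
            (R.map (algebraMap K L)) A₁ A₂ u (algebraMap K L N) (d + r + 1) v := by
        funext v
        rw [average_eq κ A₁ A₂ u N (d + r + 1) v, hρ]
      rw [h2]
      exact h1

end Pool.Agent.Results.MP_3d3918_nt.RationalTotalSpaces
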